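import Pool.Agent.Helper13.ML.DefsC
import Pool.Agent.Helper97.LN.CLS

/-!
# Project ML (MP_e66f84_ag), block CLL: boundedly many classes have the same labels
-/

set_option autoImplicit false

namespace Pool.Agent.ML

open NumberField IsDedekindDomain WithZero
open Pool.Agent.HG (Pr nm)

section

variable {k : Type} [Field k] [NumberField k]

private theorem lab_iff90 {n : ℕ} (hn : 0 < n) (v : Pr k) (e : ℕ) {c : k} (hc : c ≠ 0) :
    Lab n v e c ↔ (n : ℤ) ∣ log (v.valuation k c) + e := by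
  constructor
  · rintro ⟨d, hd⟩
    have hd0 : v.valuation k d ≠ 0 := by
      intro h0
      rw [h0, zero_pow hn.ne', mul_zero] at hd
      exact LN.val_ne v hc hd
    rw [hd, log_mul exp_ne_zero (pow_ne_zero n hd0), log_exp, log_pow, nsmul_eq_mul]
    exact ⟨log (v.valuation k d), by ring⟩
  · rintro ⟨m, hm⟩
    obtain ⟨π, hπ⟩ := v.valuation_exists_uniformizer k
    refine ⟨π ^ (-m), ?_⟩
    have h1 : v.valuation k c = exp (log (v.valuation k c)) := (exp_log (LN.val_ne v hc)).symm
    have h2 : log (v.valuation k c) = -(e : ℤ) + n * m := by linarith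
    rw [h1, h2, map_zpow₀, hπ, ← exp_zsmul, ← exp_nsmul, ← exp_add, exp_inj]
    simp only [smul_eq_mul, nsmul_eq_mul]
    ring

end

theorem cLL : StmtCLL := by
  classical
  intro k _ _ n hn
  have hn0 : 0 < n := by omega
  have : NeZero n := ⟨by omega⟩
  obtain ⟨F, hF0, hF⟩ := LN.sel_n k hn0
  refine ⟨F.card, fun T S hT hS => ?_⟩
  -- equal labels: equal valuations modulo `n`
  have key : ∀ c ∈ T, ∀ c' ∈ T, S c = S c' → ∀ v : Pr k,
      (n : ℤ) ∣ log (v.valuation k c) - log (v.valuation k c') := by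
    have half : ∀ c ∈ T, ∀ c' ∈ T, S c = S c' → ∀ v : Pr k,
        ¬ (n : ℤ) ∣ log (v.valuation k c) → (n : ℤ) ∣ log (v.valuation k c) - log (v.valuation k c') := by
      intro c hc c' hc' hcc v hv
      obtain ⟨hc0, hSc⟩ := hS c hc
      obtain ⟨hc0', hSc'⟩ := hS c' hc'
      obtain ⟨e, he1, he2⟩ : ∃ e : ℕ, e < n ∧ (n : ℤ) ∣ log (v.valuation k c) + e := by
        refine ⟨((-log (v.valuation k c)) % n).toNat, ?_, ?_⟩
        · have h1 := Int.emod_nonneg (-log (v.valuation k c)) (show (n : ℤ) ≠ 0 by omega)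
          have h2 := Int.emod_lt_of_pos (-log (v.valuation k c)) (show (0 : ℤ) < n by omega)
          omega
        · have h1 := Int.emod_nonneg (-log (v.valuation k c)) (show (n : ℤ) ≠ 0 by omega)
          rw [Int.toNat_of_nonneg h1]
          have h3 := Int.emod_add_mul_ediv (-log (v.valuation k c)) n
          exact ⟨-(-log (v.valuation k c) / n), by linarith⟩
      have he0 : e ≠ 0 := by
        rintro rfl
        apply hv
        simpa using he2
      have h1 : ((v, (⟨e, he1⟩ : Fin n)) : Pr k × Fin n) ∈ S c :=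
        (hSc v ⟨e, he1⟩).2 ⟨he0, (lab_iff90 hn0 v e hc0).2 he2⟩
      rw [hcc] at h1
      have h2 := (lab_iff90 hn0 v e hc0').1 ((hSc' v ⟨e, he1⟩).1 h1).2
      have h3 := dvd_sub he2 h2
      have h4 : log (v.valuation k c) + (e : ℤ) - (log (v.valuation k c') + (e : ℤ)) =
        log (v.valuation k c) - log (v.valuation k c') := by ring
      rwa [h4] at h3
    intro c hc c' hc' hcc v
    by_cases h1 : (n : ℤ) ∣ log (v.valuation k c)
    · by_cases h2 : (n : ℤ) ∣ log (v.valuation k c')
      · exact dvd_sub h1 h2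
      · have h3 := half c' hc' c hc hcc.symm v h2
        rw [dvd_sub_comm]
        exact h3
    · exact half c hc c' hc' hcc v h1
  refine Finset.card_le_mul_card_image (f := S) T F.card ?_
  intro γ hγ
  obtain ⟨c₀, hc₀, rfl⟩ := Finset.mem_image.1 hγ
  have hc₀0 := (hS c₀ hc₀).1
  have h1 : ∀ c ∈ T.filter (fun c => S c = S c₀), ∃ e ∈ F, ∃ d : k, c / c₀ = e * d ^ n := by
    intro c hc
    obtain ⟨hc1, hc2⟩ := Finset.mem_filter.1 hc
    have hc0 := (hS c hc1).1
    refine hF (c / c₀) (div_ne_zero hc0 hc₀0) fun v => ?_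
    rw [map_div₀, log_div (LN.val_ne v hc0) (LN.val_ne v hc₀0)]
    exact key c hc1 c₀ hc₀ hc2 v
  choose! e he d hd using h1
  refine Finset.card_le_card_of_injOn e he ?_
  intro c hc c' hc' hee
  have hc1 := (Finset.mem_filter.1 hc).1
  have hc1' := (Finset.mem_filter.1 hc').1
  have hc0' := (hS c' hc1').1
  have g1 := hd c hc
  have g2 := hd c' hc'
  have hd' : d c' ≠ 0 := by
    intro h
    rw [h, zero_pow hn0.ne', mul_zero] at g2
    exact div_ne_zero hc0' hc₀0 g2
  have he0 := hF0 _ (he c' hc')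
  refine hT c hc1 c' hc1' ⟨d c / d c', ?_⟩
  have hee' : e c = e c' := hee
  have g3 : c / c₀ = c' / c₀ * (d c / d c') ^ n := by
    rw [g1, g2, hee', div_pow]
    have i1 := pow_ne_zero n hd'
    field_simp
  calc c = (c / c₀) * c₀ := (div_mul_cancel₀ _ hc₀0).symm
    _ = (c' / c₀ * (d c / d c') ^ n) * c₀ := by rw [g3]
    _ = c' * (d c / d c') ^ n := by
      rw [mul_comm, ← mul_assoc, mul_div_cancel₀ _ hc₀0]

end Pool.Agent.ML
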