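import Pool.Agent.Helper45.ML.DefsR
import Pool.Agent.Helper45.LN.CLO
import Pool.Agent.Helper97.LN.CLS

/-!
# Project ML (MP_e66f84_ag), block LOWC: from sets of primes to classes modulo `n`-th powers in a coset
-/

set_option autoImplicit false

namespace Pool.Agent.ML

open NumberField IsDedekindDomain WithZero UniqueFactorizationMonoid
open Pool.Agent.LN (IsRam)
open Pool.Agent.HG (Pr nm)

section

variable {k : Type} [Field k] [NumberField k]

/-- the valuation modulo `n` -/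
private noncomputable def lv (n : ℕ) (v : Pr k) (c : k) : ZMod n := ((log (v.valuation k c) : ℤ) : ZMod n)

private theorem lv_mul {n : ℕ} (v : Pr k) {c d : k} (hc : c ≠ 0) (hd : d ≠ 0) :
    lv n v (c * d) = lv n v c + lv n v d := by
  unfold lv
  rw [map_mul, log_mul (by simpa using hc) (by simpa using hd), Int.cast_add]

private theorem lv_inv {n : ℕ} (v : Pr k) (c : k) : lv n v (c⁻¹) = - lv n v c := by
  unfold lv
  rw [map_inv₀, log_inv, Int.cast_neg]

private theorem lv_pow {n : ℕ} (v : Pr k) (c : k) : lv n v (c ^ n) = 0 := by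
  unfold lv
  rw [map_pow, log_pow, nsmul_eq_mul, Int.cast_mul]
  simp

private theorem isRam_lv {n : ℕ} [NeZero n] (v : Pr k) {c : k} (hc : c ≠ 0) :
    IsRam n v c ↔ lv n v c ≠ 0 := by
  rw [LN.isRam_iff (NeZero.pos n) v hc, lv, Ne, ZMod.intCast_zmod_eq_zero_iff_dvd]

private theorem prod_union_le' {α : Type} [DecidableEq α] (f : α → ℕ) (hf : ∀ a, 0 < f a)
    (s t : Finset α) : ∏ a ∈ s ∪ t, f a ≤ (∏ a ∈ s, f a) * ∏ a ∈ t, f a := by
  rw [← Finset.prod_union_inter]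
  exact Nat.le_mul_of_pos_right _ (Finset.prod_pos fun a _ => hf a)

end

theorem lowc : StmtLOWC := by
  classical
  intro k _ _ n hn W hW Q Sg _ c₀ hc₀
  have hn0 : 0 < n := by omega
  have : NeZero n := ⟨by omega⟩
  obtain ⟨F, hF0, hF⟩ := LN.exists_princ (k := k)
  have hBfin : {v : Pr k | ∃ I ∈ F, v.asIdeal ∣ I}.Finite := by
    have h1 : {v : Pr k | ∃ I ∈ F, v.asIdeal ∣ I} = ⋃ I ∈ F, {v : Pr k | v.asIdeal ∣ I} := by
      ext v
      simp
    rw [h1]
    refine Set.Finite.biUnion F.finite_toSet fun I hI => ?_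
    exact Ideal.finite_factors (hF0 I hI)
  obtain ⟨Bd, hBd⟩ : ∃ Bd : Finset (Pr k), Bd = hBfin.toFinset := ⟨_, rfl⟩
  have hBd' : ∀ v : Pr k, v ∈ Bd ↔ ∃ I ∈ F, v.asIdeal ∣ I := by
    intro v
    rw [hBd, Set.Finite.mem_toFinset]
    rfl
  -- the exponents
  let ex : (Σ s : Finset (Pr k), ∀ v ∈ s, ℕ) → Pr k → ℕ := fun p v =>
    if hv : v ∈ p.1 then p.2 v hv else 0
  have hex : ∀ p, ∀ v ∉ p.1, ex p v = 0 := fun p v hv => dif_neg hv
  have hex' : ∀ p v (hv : v ∈ p.1), ex p v = p.2 v hv := fun p v hv => dif_pos hv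
  have hJ0 : ∀ p : (Σ s : Finset (Pr k), ∀ v ∈ s, ℕ), (∏ v ∈ p.1, v.asIdeal ^ ex p v) ≠ 0 :=
    fun p => Finset.prod_ne_zero_iff.2 fun v _ => pow_ne_zero _ v.prime.ne_zero
  choose I hI c hc0 hc using fun p => hF _ (hJ0 p)
  have hck : ∀ p, ((c p : 𝓞 k) : k) ≠ 0 := fun p h => hc0 p (RingOfIntegers.coe_eq_zero_iff.1 h)
  obtain ⟨u, hu⟩ : ∃ u : (Σ s : Finset (Pr k), ∀ v ∈ s, ℕ) → kˣ, ∀ p, ((u p : kˣ) : k) = (c p : k) :=
    ⟨fun p => Units.mk0 _ (hck p), fun p => rfl⟩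
  -- the valuations of the generators away from `Bd`
  have hpar : ∀ p, ∀ v ∉ Bd, lv n v (u p : k) = -((ex p v : ℕ) : ZMod n) := by
    intro p v hv
    rw [hBd'] at hv
    have h1 : FiniteMultiplicity v.asIdeal ((∏ v ∈ p.1, v.asIdeal ^ ex p v) * I p) :=
      FiniteMultiplicity.of_prime_left v.prime (mul_ne_zero (hJ0 p) (hF0 _ (hI p)))
    have h2 : multiplicity v.asIdeal (I p) = 0 :=
      multiplicity_eq_zero.2 fun h => hv ⟨I p, hI p, h⟩
    have h3 : (if v ∈ p.1 then ex p v else 0) = ex p v := by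
      by_cases hvs : v ∈ p.1
      · rw [if_pos hvs]
      · rw [if_neg hvs, hex p v hvs]
    unfold lv
    rw [hu, LN.val_int v (hc0 p), log_exp, hc p, multiplicity_mul v.prime h1,
      LN.mult_prod v, h2, add_zero, h3, Int.cast_neg, Int.cast_natCast]
  -- the invariant
  have hfinW : Finite (kˣ ⧸ W) := Subgroup.finite_quotient_of_finiteIndex
  have hft : Fintype (kˣ ⧸ W) := Fintype.ofFinite _
  obtain ⟨qq, hqq⟩ : ∃ qq : (Σ s : Finset (Pr k), ∀ v ∈ s, ℕ) → (Bd → ZMod n) × (kˣ ⧸ W), ∀ p,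
      qq p = (fun v => lv n v.1 (u p : k), (u p : kˣ ⧸ W)) := ⟨fun p => _, fun p => rfl⟩
  -- the representatives
  have hrep : ∀ q : (Bd → ZMod n) × (kˣ ⧸ W), ∃ r : (Σ s : Finset (Pr k), ∀ v ∈ s, ℕ),
      ∀ p : (Σ s : Finset (Pr k), ∀ v ∈ s, ℕ), (∀ v ∈ p.1, v ∈ Q ∧ v ∉ Bd) → qq p = q →
        (∀ v ∈ r.1, v ∈ Q ∧ v ∉ Bd) ∧ qq r = q := by
    intro q
    by_cases h : ∃ p : (Σ s : Finset (Pr k), ∀ v ∈ s, ℕ), (∀ v ∈ p.1, v ∈ Q ∧ v ∉ Bd) ∧ qq p = q
    · obtain ⟨r, hr⟩ := h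
      exact ⟨r, fun s _ _ => hr⟩
    · exact ⟨⟨∅, fun _ _ => 0⟩, fun p h1 h2 => absurd ⟨p, h1, h2⟩ h⟩
  choose rep hrep using hrep
  have hnm : ∀ v : Pr k, 0 < nm v := fun v => by
    refine Nat.pos_of_ne_zero ?_
    show Ideal.absNorm v.asIdeal ≠ 0
    rw [Ne, Ideal.absNorm_eq_zero_iff]
    exact v.ne_bot
  have hO₀fin : {v : Pr k | IsRam n v (c₀ : k)}.Finite :=
    (LN.fin_val c₀.ne_zero).subset fun v hv => LN.isRam_ne_one hv
  obtain ⟨O₀, hO₀⟩ : ∃ O : Finset (Pr k), O = hO₀fin.toFinset := ⟨_, rfl⟩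
  have hO₀' : ∀ v : Pr k, v ∈ O₀ ↔ IsRam n v (c₀ : k) := by
    intro v
    rw [hO₀, Set.Finite.mem_toFinset]
    rfl
  obtain ⟨D₁, hD₁⟩ : ∃ D₁ : ℕ, D₁ = ∏ v ∈ Bd ∪ O₀, nm v := ⟨_, rfl⟩
  obtain ⟨D₂, hD₂⟩ : ∃ D₂ : ℕ, D₂ = ∏ q, ∏ v ∈ (rep q).1, nm v := ⟨_, rfl⟩
  have hD₁0 : 0 < D₁ := hD₁ ▸ Finset.prod_pos fun v _ => hnm v
  have hD₂0 : 0 < D₂ := hD₂ ▸ Finset.prod_pos fun q _ => Finset.prod_pos fun v _ => hnm v
  obtain ⟨A, hA⟩ : ∃ A : Finset ((Bd → ZMod n) × (kˣ ⧸ W)), A = Finset.univ := ⟨_, rfl⟩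
  have hqA : ∀ p, qq p ∈ A := fun p => by rw [hA]; exact Finset.mem_univ _
  have hAne : A.Nonempty := ⟨_, hqA ⟨∅, fun _ _ => 0⟩⟩
  refine ⟨(Bd : Set (Pr k)), D₁ * D₂, A.card, Bd.finite_toSet, Nat.mul_pos hD₁0 hD₂0,
    Finset.card_pos.2 hAne, fun Y S hS => ?_⟩
  have hSB : ∀ s ∈ S, ∀ v ∈ s, v ∈ Q ∧ v ∉ Bd := fun s hs v hv =>
    ⟨((hS s hs).2 v hv).1, fun h => ((hS s hs).2 v hv).2 (Finset.mem_coe.2 h)⟩
  obtain ⟨PP, hPP⟩ : ∃ A : Finset (Σ s : Finset (Pr k), ∀ v ∈ s, ℕ),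
      A = S.sigma fun s => s.pi fun _ => Finset.Ico 1 n := ⟨_, rfl⟩
  have hmem : ∀ p, p ∈ PP ↔ p.1 ∈ S ∧ ∀ v (hv : v ∈ p.1), p.2 v hv ∈ Finset.Ico 1 n := by
    intro p
    rw [hPP, Finset.mem_sigma, Finset.mem_pi]
  -- the largest class
  obtain ⟨q, hq, hmax⟩ := Finset.exists_max_image A
    (fun q => (PP.filter fun p => qq p = q).card) hAne
  have hcard : PP.card ≤ A.card * (PP.filter fun p => qq p = q).card := by
    rw [Finset.card_eq_sum_card_fiberwise (f := qq) (t := A) fun p _ => hqA p, ← smul_eq_mul]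
    exact Finset.sum_le_card_nsmul _ _ _ hmax
  -- the twists
  obtain ⟨w, hw⟩ : ∃ w : (Σ s : Finset (Pr k), ∀ v ∈ s, ℕ) → kˣ, ∀ p,
      w p = u p * (u (rep q))⁻¹ * c₀ := ⟨fun p => _, fun p => rfl⟩
  have hlog : ∀ p, ∀ v : Pr k, lv n v (w p : k) = lv n v (u p : k) -
      lv n v (u (rep q) : k) + lv n v (c₀ : k) := by
    intro p v
    rw [hw, Units.val_mul, Units.val_mul, Units.val_inv_eq_inv_val,
      lv_mul v (mul_ne_zero (u p).ne_zero (inv_ne_zero (u (rep q)).ne_zero)) c₀.ne_zero,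
      lv_mul v (u p).ne_zero (inv_ne_zero (u (rep q)).ne_zero), lv_inv]
    ring
  have hinj : ∀ p ∈ PP, ∀ p' ∈ PP, (∃ d : k, ((w p : kˣ) : k) = (w p' : k) * d ^ n) → p = p' := by
    rintro p hp p' hp' ⟨d, hd⟩
    rw [hmem] at hp hp'
    have hd0 : d ≠ 0 := by
      rintro rfl
      rw [zero_pow hn0.ne', mul_zero] at hd
      exact (w p).ne_zero hd
    have hlt : ∀ r : (Σ s : Finset (Pr k), ∀ v ∈ s, ℕ),
        (∀ v (hv : v ∈ r.1), r.2 v hv ∈ Finset.Ico 1 n) → ∀ v, ex r v < n := by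
      intro r hr v
      by_cases hvr : v ∈ r.1
      · rw [hex' r v hvr]
        exact (Finset.mem_Ico.1 (hr v hvr)).2
      · rw [hex r v hvr]; omega
    have hexeq : ∀ v, ex p v = ex p' v := by
      intro v
      by_cases hv : v ∈ Bd
      · rw [hex p v fun h => (hSB p.1 hp.1 v h).2 hv, hex p' v fun h => (hSB p'.1 hp'.1 v h).2 hv]
      · have h1 : lv n v (w p : k) = lv n v (w p' : k) := by
          rw [hd, lv_mul v (w p').ne_zero (pow_ne_zero n hd0), lv_pow, add_zero]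
        rw [hlog, hlog, hpar p v hv, hpar p' v hv] at h1
        have h2 : ((ex p v : ℕ) : ZMod n) = ((ex p' v : ℕ) : ZMod n) := by
          have h3 := add_right_cancel h1
          have h4 := sub_left_injective h3
          exact neg_injective h4
        have h5 := congrArg ZMod.val h2
        rwa [ZMod.val_natCast_of_lt (hlt p hp.2 v), ZMod.val_natCast_of_lt (hlt p' hp'.2 v)] at h5
    obtain ⟨s, e⟩ := p
    obtain ⟨s', e'⟩ := p'
    have hs : s = s' := by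
      ext v
      have key : ∀ r : (Σ s : Finset (Pr k), ∀ v ∈ s, ℕ),
          (∀ v (hv : v ∈ r.1), r.2 v hv ∈ Finset.Ico 1 n) → (v ∈ r.1 ↔ ex r v ≠ 0) := by
        intro r hr
        by_cases hvr : v ∈ r.1
        · rw [hex' r v hvr]
          have := (Finset.mem_Ico.1 (hr v hvr)).1
          constructor
          · intro _; omega
          · intro _; exact hvr
        · rw [hex r v hvr]
          constructor
          · intro h; exact absurd h hvr
          · intro h; exact absurd rfl h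
      rw [key ⟨s, e⟩ hp.2, key ⟨s', e'⟩ hp'.2, hexeq]
    subst hs
    congr 1
    funext v hv
    have := hexeq v
    rwa [hex' ⟨s, e⟩ v hv, hex' ⟨s, e'⟩ v hv] at this
  refine ⟨(PP.filter fun p => qq p = q).image w, ?_, ?_, ?_⟩
  · intro a ha b hb hab
    obtain ⟨p, hp, rfl⟩ := Finset.mem_image.1 ha
    obtain ⟨p', hp', rfl⟩ := Finset.mem_image.1 hb
    rw [hinj p (Finset.mem_filter.1 hp).1 p' (Finset.mem_filter.1 hp').1 hab]
  · intro a ha
    obtain ⟨p, hp, rfl⟩ := Finset.mem_image.1 ha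
    obtain ⟨hpP, hpq⟩ := Finset.mem_filter.1 hp
    have hpS := ((hmem p).1 hpP).1
    obtain ⟨hr1, hr2⟩ := hrep q p (hSB p.1 hpS) hpq
    rw [← hr2, hqq, hqq, Prod.mk.injEq] at hpq
    obtain ⟨hf, hcl⟩ := hpq
    -- ramified primes
    have hodd : ∀ v : Pr k, IsRam n v (w p : k) → (v ∉ Bd ∧ (v ∈ p.1 ∨ v ∈ (rep q).1)) ∨ v ∈ O₀ := by
      intro v hv
      rw [isRam_lv v (w p).ne_zero, hlog] at hv
      by_cases hvO : v ∈ O₀
      · exact Or.inr hvO
      left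
      rw [hO₀', isRam_lv v c₀.ne_zero, not_not] at hvO
      rw [hvO, add_zero] at hv
      by_cases hvB : v ∈ Bd
      · exfalso
        apply hv
        rw [sub_eq_zero]
        exact congrFun hf ⟨v, hvB⟩
      · refine ⟨hvB, ?_⟩
        by_contra hcon
        push Not at hcon
        apply hv
        rw [hpar p v hvB, hpar (rep q) v hvB, hex p v hcon.1, hex (rep q) v hcon.2, sub_self]
    refine ⟨?_, ?_, ?_⟩
    · -- the conductor
      have hsub : ∀ v : Pr k, IsRam n v (w p : k) → v ∈ (p.1 ∪ (rep q).1) ∪ (Bd ∪ O₀) := by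
        intro v hv
        rw [Finset.mem_union, Finset.mem_union, Finset.mem_union]
        rcases hodd v hv with ⟨_, h⟩ | h
        · exact Or.inl h
        · exact Or.inr (Or.inr h)
      have h1 : LN.cond n (w p : k) =
          ∏ v ∈ (p.1 ∪ (rep q).1) ∪ (Bd ∪ O₀), if IsRam n v (w p : k) then nm v else 1 := by
        unfold LN.cond
        refine finprod_eq_prod_of_mulSupport_subset _ ?_
        intro v hv
        rw [Function.mem_mulSupport] at hv
        by_contra hcon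
        apply hv
        rw [if_neg fun h => hcon (Finset.mem_coe.2 (hsub v h))]
      rw [h1]
      have hrq : ∏ v ∈ (rep q).1, nm v ≤ D₂ := by
        rw [hD₂]
        refine Nat.le_of_dvd (Finset.prod_pos fun q _ => Finset.prod_pos fun v _ => hnm v) ?_
        exact Finset.dvd_prod_of_mem (fun q => ∏ v ∈ (rep q).1, nm v) (Finset.mem_univ q)
      calc (∏ v ∈ (p.1 ∪ (rep q).1) ∪ (Bd ∪ O₀), if IsRam n v (w p : k) then nm v else 1)
          ≤ ∏ v ∈ (p.1 ∪ (rep q).1) ∪ (Bd ∪ O₀), nm v := by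
            refine Finset.prod_le_prod' fun v _ => ?_
            split_ifs
            · exact le_rfl
            · exact hnm v
        _ ≤ (∏ v ∈ p.1 ∪ (rep q).1, nm v) * D₁ := by
            rw [hD₁]
            exact prod_union_le' _ hnm _ _
        _ ≤ ((∏ v ∈ p.1, nm v) * ∏ v ∈ (rep q).1, nm v) * D₁ :=
            Nat.mul_le_mul_right _ (prod_union_le' _ hnm _ _)
        _ ≤ (Y * D₂) * D₁ := Nat.mul_le_mul_right _ (Nat.mul_le_mul (hS p.1 hpS).1 hrq)
        _ = _ := by ring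
    · -- the class
      have h2 : (u (rep q))⁻¹ * u p ∈ W := by
        rw [← QuotientGroup.eq]
        exact hcl.symm
      have h3 : c₀⁻¹ * w p = (u (rep q))⁻¹ * u p := by
        rw [hw]
        rw [mul_comm (u p * (u (rep q))⁻¹) c₀, inv_mul_cancel_left, mul_comm]
      rw [h3]
      exact h2
    · intro v hv hvodd
      rcases hodd v hvodd with ⟨_, h | h⟩ | h
      · exact (hSB p.1 hpS v h).1
      · exact (hr1 v h).1
      · exact hc₀ v hv ((hO₀' v).1 h)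
  · rw [Finset.card_image_of_injOn]
    · refine le_trans (le_of_eq ?_) hcard
      rw [hPP, Finset.card_sigma]
      refine Finset.sum_congr rfl fun s _ => ?_
      rw [Finset.card_pi, Finset.prod_const, Nat.card_Ico]
    · intro p hp p' hp' h
      exact hinj p (Finset.mem_filter.1 hp).1 p' (Finset.mem_filter.1 hp').1
        ⟨1, by rw [one_pow, mul_one]; exact congrArg _ h⟩

end Pool.Agent.ML
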